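import Pool.Agent.H42.SL.Base

/-!
# Column windows for `ep = -1`: the facts
-/

namespace Pool.Agent.H42.WM

open Pool.Agent.H78.RT
open Pool.Agent.H78.Tie
open Pool.Agent.H78.Tie.TAp
open Pool.Agent.H78.SV

/-- inequalities on the classes `n` (overlapping, free wall) and `k` -/
structure PW (A : TAp) (T : A.Tie) (sx n k U S a V R b : ℤ) : Prop where
  cn : IsC A n U S a
  ck : IsC A k V R b
  a1 : a + 1 ≤ A.D
  u0 : 2 ≤ U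
  u1 : U + 2 ≤ A.q * A.w
  v0 : -(A.q * A.h : ℤ) + 2 ≤ U + S
  v1 : U + S + 2 ≤ A.q * A.h
  d0 : A.q * (A.w : ℤ) ≤ A.D
  hx : A.q * (A.w : ℤ) + sx * (A.q * T.x) ≤ A.q * A.h
  ft : A.D + 1 ≤ a + th A T.t
  b0 : 1 ≤ b
  b1 : b + 1 ≤ A.D
  r0 : -NN A ≤ 2 * R
  r1 : 2 * R ≤ NN A

end Pool.Agent.H42.WM
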