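import Pool.Agent.H42.WM.Base
import Pool.Agent.H42.WM.TpmC

/-!
# The cells of the column windows, `ep = -1`
-/

namespace Pool.Agent.H42.WM

open Pool.Agent.H78.RT
open Pool.Agent.H78.Tie
open Pool.Agent.H78.Tie.TAp
open Pool.Agent.H78.SV
open Pool.Agent.H42.SL (goG resG)
open Pool.Agent.H81.LT (fnil fcons)
open Pool.Agent.H81.AP (LF dot dot_nil dot_nil' dot_cons AllNn AllNe)

variable {A : TAp} {T : A.Tie} {n k U S a V R b : ℤ}

theorem c_mmmpmC (d : ST A T (-1)) (hsg : A.sg = -1) (hep : T.ep = -1)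
    (h : PW A T (-1) n k U S a V R b) (hv : U + S + 2 ≤ 0) (s0 : S + A.q ≤ 0) (s1 : A.q * (A.w : ℤ) + A.q ≤ S + A.q * A.h)
    (k0 : V + 1 ≤ 0) (k1 : U + 1 ≤ V + A.q * A.w) : False := by
  refine goG d (sp := false) (ep := false) hsg hep h.cn h.ck (ga := mmmpmC_g)
    (la := mmmpmC_q) ?_ ?_ mmmpmC_k
  · obtain ⟨-, -, p1, p2, p3, p4, p5, p6, p7, p8, p9, p10, p11, p12⟩ := h
    unfold mmmpmC_g env
    simp only [AllNn, dot_cons, dot_nil]
    refine ⟨?_, ?_, ?_, ?_, ?_, ?_, ?_, ?_, ?_, ?_, ?_, ?_, ?_, ?_, trivial⟩ <;> linarith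
  · unfold mmmpmC_q
    repeat' first | exact fnil | refine fcons ?_ ?_
    all_goals (simp only [resG, sgv, dot_cons, dot_nil]; ring)

theorem c_mmppmC (d : ST A T (1)) (hsg : A.sg = -1) (hep : T.ep = -1)
    (h : PW A T (1) n k U S a V R b) (hv : U + S + 2 ≤ 0) (s0 : S + A.q ≤ 0) (s1 : A.q * (A.w : ℤ) + A.q ≤ S + A.q * A.h)
    (k0 : V + 1 ≤ 0) (k1 : U + 1 ≤ V + A.q * A.w) : False := by
  refine goG d (sp := false) (ep := false) hsg hep h.cn h.ck (ga := mmppmC_g)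
    (la := mmppmC_q) ?_ ?_ mmppmC_k
  · obtain ⟨-, -, p1, p2, p3, p4, p5, p6, p7, p8, p9, p10, p11, p12⟩ := h
    unfold mmppmC_g env
    simp only [AllNn, dot_cons, dot_nil]
    refine ⟨?_, ?_, ?_, ?_, ?_, ?_, ?_, ?_, ?_, ?_, ?_, ?_, ?_, ?_, trivial⟩ <;> linarith
  · unfold mmppmC_q
    repeat' first | exact fnil | refine fcons ?_ ?_
    all_goals (simp only [resG, sgv, dot_cons, dot_nil]; ring)

theorem c_mpmpmC (d : ST A T (-1)) (hsg : A.sg = 1) (hep : T.ep = -1)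
    (h : PW A T (-1) n k U S a V R b) (hv : U + S + 2 ≤ 0) (s0 : S + A.q ≤ 0) (s1 : A.q * (A.w : ℤ) + A.q ≤ S + A.q * A.h)
    (k0 : V + 1 ≤ 0) (k1 : U + 1 ≤ V + A.q * A.w) : False := by
  refine goG d (sp := true) (ep := false) hsg hep h.cn h.ck (ga := mpmpmC_g)
    (la := mpmpmC_q) ?_ ?_ mpmpmC_k
  · obtain ⟨-, -, p1, p2, p3, p4, p5, p6, p7, p8, p9, p10, p11, p12⟩ := h
    unfold mpmpmC_g env
    simp only [AllNn, dot_cons, dot_nil]
    refine ⟨?_, ?_, ?_, ?_, ?_, ?_, ?_, ?_, ?_, ?_, ?_, ?_, ?_, ?_, trivial⟩ <;> linarith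
  · unfold mpmpmC_q
    repeat' first | exact fnil | refine fcons ?_ ?_
    all_goals (simp only [resG, sgv, dot_cons, dot_nil]; ring)

theorem c_mpppmC (d : ST A T (1)) (hsg : A.sg = 1) (hep : T.ep = -1)
    (h : PW A T (1) n k U S a V R b) (hv : U + S + 2 ≤ 0) (s0 : S + A.q ≤ 0) (s1 : A.q * (A.w : ℤ) + A.q ≤ S + A.q * A.h)
    (k0 : V + 1 ≤ 0) (k1 : U + 1 ≤ V + A.q * A.w) : False := by
  refine goG d (sp := true) (ep := false) hsg hep h.cn h.ck (ga := mpppmC_g)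
    (la := mpppmC_q) ?_ ?_ mpppmC_k
  · obtain ⟨-, -, p1, p2, p3, p4, p5, p6, p7, p8, p9, p10, p11, p12⟩ := h
    unfold mpppmC_g env
    simp only [AllNn, dot_cons, dot_nil]
    refine ⟨?_, ?_, ?_, ?_, ?_, ?_, ?_, ?_, ?_, ?_, ?_, ?_, ?_, ?_, trivial⟩ <;> linarith
  · unfold mpppmC_q
    repeat' first | exact fnil | refine fcons ?_ ?_
    all_goals (simp only [resG, sgv, dot_cons, dot_nil]; ring)

end Pool.Agent.H42.WM
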