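import Pool.Agent.H98.HL.Go
import Pool.Agent.H42.WM.CppA
import Pool.Agent.H42.WM.CppB
import Pool.Agent.H42.WM.CppC
import Pool.Agent.H42.WM.CpmA
import Pool.Agent.H42.WM.CpmB
import Pool.Agent.H42.WM.CpmC

/-!
# Tall rectangles, `ep = -1`: no class in the column window
-/

namespace Pool.Agent.H42.WM

open Pool.Agent.H78.RT
open Pool.Agent.H78.Tie
open Pool.Agent.H78.Tie.TAp
open Pool.Agent.H78.SV (ST sgv)
open Pool.Agent.H78.HL (TL OV FT Win)

variable {A : TAp} {T : A.Tie}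

/-- a small representative of the row -/
theorem repS {K U' S' θ : ℤ} (hK : IsC A K U' S' θ) :
    ∃ R, IsC A K U' R θ ∧ -NN A ≤ 2 * R ∧ 2 * R ≤ NN A := by
  obtain ⟨R, hS, S0, S1⟩ := Pool.Agent.H23.DT.exists_rep (NN_pos A) S'
  refine ⟨R, ?_, S0, S1⟩
  obtain ⟨⟨h1, ⟨s, hs1, hs2⟩, h3⟩, h4⟩ := hK
  refine ⟨⟨h1, ?_, h3⟩, h4⟩
  obtain ⟨z, hz⟩ := hS
  refine ⟨s - z * A.p, ?_, ?_⟩
  · rw [hs1] at hz
    unfold NN at hz
    linear_combination -hz
  · obtain ⟨y, hy⟩ := hs2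
    exact ⟨y + z, by linear_combination hy⟩

/-- two classes with abscissas equal modulo `q` are equal -/
theorem eq_of {n U S a k V R b : ℤ} (hn : IsC A n U S a) (hk : IsC A k V R b)
    (h : (A.q : ℤ) ∣ U - V) : n = k := by
  by_contra hne
  have h1 := (dvd_mul_left (A.q : ℤ) A.p).trans hn.1.1
  have h2 := (dvd_mul_left (A.q : ℤ) A.p).trans hk.1.1
  have h3 := dvd_add (dvd_sub h1 h2) h
  rw [show A.a * n - U - (A.a * k - V) + (U - V) = A.a * (n - k) by ring] at h3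
  have := hn.2.1
  have := hn.2.2
  have := hk.2.1
  have := hk.2.2
  exact A.gen (n - k) (by omega) (by rw [abs_le]; constructor <;> omega) h3

theorem w_ppA {xp : Bool} (d : ST A T (sgv xp)) (hep : T.ep = -1) {n k U S a V R b : ℤ}
    (h : PW A T (sgv xp) n k U S a V R b) (hv : 2 ≤ U + S) (s0 : (A.q : ℤ) ≤ S)
    (s1 : S + A.q * A.w + A.q ≤ A.q * A.h)
    (k0 : 1 ≤ V) (k1 : V + 1 ≤ U) : False := by
  rcases A.hsg with hs | hs <;> cases xp
  · exact c_mpmppA d hs hep h hv s0 s1 k0 k1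
  · exact c_mppppA d hs hep h hv s0 s1 k0 k1
  · exact c_mmmppA d hs hep h hv s0 s1 k0 k1
  · exact c_mmpppA d hs hep h hv s0 s1 k0 k1

theorem w_ppB {xp : Bool} (d : ST A T (sgv xp)) (hep : T.ep = -1) {n k U S a V R b : ℤ}
    (h : PW A T (sgv xp) n k U S a V R b) (hv : 2 ≤ U + S) (s0 : (A.q : ℤ) ≤ S)
    (s1 : S + A.q * A.w + A.q ≤ A.q * A.h)
    (k0 : U + 1 ≤ V) (k1 : V + 1 ≤ A.q * A.w) : False := by
  rcases A.hsg with hs | hs <;> cases xp
  · exact c_mpmppB d hs hep h hv s0 s1 k0 k1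
  · exact c_mppppB d hs hep h hv s0 s1 k0 k1
  · exact c_mmmppB d hs hep h hv s0 s1 k0 k1
  · exact c_mmpppB d hs hep h hv s0 s1 k0 k1

theorem w_ppC {xp : Bool} (d : ST A T (sgv xp)) (hep : T.ep = -1) {n k U S a V R b : ℤ}
    (h : PW A T (sgv xp) n k U S a V R b) (hv : 2 ≤ U + S) (s0 : (A.q : ℤ) ≤ S)
    (s1 : S + A.q * A.w + A.q ≤ A.q * A.h)
    (k0 : V + 1 ≤ 0) (k1 : U + 1 ≤ V + A.q * A.w) : False := by
  rcases A.hsg with hs | hs <;> cases xp
  · exact c_mpmppC d hs hep h hv s0 s1 k0 k1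
  · exact c_mppppC d hs hep h hv s0 s1 k0 k1
  · exact c_mmmppC d hs hep h hv s0 s1 k0 k1
  · exact c_mmpppC d hs hep h hv s0 s1 k0 k1

theorem w_pmA {xp : Bool} (d : ST A T (sgv xp)) (hep : T.ep = -1) {n k U S a V R b : ℤ}
    (h : PW A T (sgv xp) n k U S a V R b) (hv : U + S + 2 ≤ 0) (s0 : S + A.q ≤ 0)
    (s1 : A.q * (A.w : ℤ) + A.q ≤ S + A.q * A.h)
    (k0 : 1 ≤ V) (k1 : V + 1 ≤ U) : False := by
  rcases A.hsg with hs | hs <;> cases xp
  · exact c_mpmpmA d hs hep h hv s0 s1 k0 k1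
  · exact c_mpppmA d hs hep h hv s0 s1 k0 k1
  · exact c_mmmpmA d hs hep h hv s0 s1 k0 k1
  · exact c_mmppmA d hs hep h hv s0 s1 k0 k1

theorem w_pmB {xp : Bool} (d : ST A T (sgv xp)) (hep : T.ep = -1) {n k U S a V R b : ℤ}
    (h : PW A T (sgv xp) n k U S a V R b) (hv : U + S + 2 ≤ 0) (s0 : S + A.q ≤ 0)
    (s1 : A.q * (A.w : ℤ) + A.q ≤ S + A.q * A.h)
    (k0 : U + 1 ≤ V) (k1 : V + 1 ≤ A.q * A.w) : False := by
  rcases A.hsg with hs | hs <;> cases xp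
  · exact c_mpmpmB d hs hep h hv s0 s1 k0 k1
  · exact c_mpppmB d hs hep h hv s0 s1 k0 k1
  · exact c_mmmpmB d hs hep h hv s0 s1 k0 k1
  · exact c_mmppmB d hs hep h hv s0 s1 k0 k1

theorem w_pmC {xp : Bool} (d : ST A T (sgv xp)) (hep : T.ep = -1) {n k U S a V R b : ℤ}
    (h : PW A T (sgv xp) n k U S a V R b) (hv : U + S + 2 ≤ 0) (s0 : S + A.q ≤ 0)
    (s1 : A.q * (A.w : ℤ) + A.q ≤ S + A.q * A.h)
    (k0 : V + 1 ≤ 0) (k1 : U + 1 ≤ V + A.q * A.w) : False := by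
  rcases A.hsg with hs | hs <;> cases xp
  · exact c_mpmpmC d hs hep h hv s0 s1 k0 k1
  · exact c_mpppmC d hs hep h hv s0 s1 k0 k1
  · exact c_mmmpmC d hs hep h hv s0 s1 k0 k1
  · exact c_mmppmC d hs hep h hv s0 s1 k0 k1

/-- no class in the column window, `ep = -1` -/
theorem win (h : TL T) {n U S : ℤ} (o : OV T n U S) (f : FT T n U)
    (e : (U + S < 0 → A.q * A.w - A.q * A.h + A.q ≤ S) ∧
      (0 < U + S → (A.q : ℤ) ≤ S ∧ S ≤ A.q * A.h - A.q * A.w - A.q))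
    (he : T.ep = -1) : Win T n U := by
  intro K U' S' hK hn ht h0 h1
  obtain ⟨xp, d⟩ := Pool.Agent.H98.HL.TL.st h
  have on := Pool.Agent.H98.HL.OV.on d o
  have hq := A.q_pos'
  have hu := f.u
  have hf := f.f
  rw [he] at hu h0 h1
  obtain ⟨R, hK', R0, R1⟩ := repS hK
  have hwx : A.q * (A.w : ℤ) + sgv xp * (A.q * T.x) ≤ A.q * A.h := by
    have h1 : (A.w : ℤ) + sgv xp * T.x ≤ A.h := by
      have h2 := h.hw
      have h3 : sgv xp * T.x ≤ |T.x| := by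
        cases xp
        · change -1 * T.x ≤ |T.x|
          have := neg_le_abs T.x
          linarith
        · change 1 * T.x ≤ |T.x|
          have := le_abs_self T.x
          linarith
      linarith
    have := mul_le_mul_of_nonneg_left h1 hq.le
    linarith
  have hWD := Pool.Agent.H78.HL.W_le_D h
  have t1 := on.t1
  have u1 := on.u1
  have hu2 : 2 ≤ U := by rcases on.u with h | h <;> linarith
  have j0 := th_pos A hK.2.1
  have j1 := th_ltD A hK.2.2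
  have P : PW A T (sgv xp) n K U S (th A n) U' R (th A K) :=
    ⟨o.cn, hK', t1, hu2, u1, on.v0, on.v1, hWD.le, hwx, by omega, by omega, by omega, R0, R1⟩
  have nq : ∀ x : ℤ, U - U' ≠ A.q * x := fun x hx => hn (eq_of o.cn hK ⟨x, hx⟩).symm
  have n0 : U' ≠ 0 := by
    intro h2
    rw [h2] at hK
    refine A.gen K hK.2.1.ne' ?_ ((dvd_mul_left (A.q : ℤ) A.p).trans (by simpa [NN] using hK.1.1))
    rw [abs_of_pos hK.2.1]; exact hK.2.2.le
  have n1 : U' ≠ U := fun h2 => nq 0 (by rw [h2]; ring)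
  have n2 : U' ≠ U - A.q * A.w := fun h2 => nq A.w (by rw [h2]; ring)
  obtain ⟨s, hs, -⟩ := o.cn.1.2.1
  have hcase : (U' + 1 ≤ 0 ∧ U + 1 ≤ U' + A.q * A.w) ∨ (1 ≤ U' ∧ U' + 1 ≤ U) ∨
      (U + 1 ≤ U' ∧ U' + 1 ≤ A.q * A.w) := by omega
  rcases on.v with hv | hv
  · have e1 := e.1 (by linarith)
    have s0 : S + A.q ≤ 0 := by
      have h3 : A.q * s < A.q * 0 := by rw [← hs]; linarith
      have h4 := lt_of_mul_lt_mul_left h3 hq.le
      have := mul_le_mul_of_nonneg_left (show s + 1 ≤ 0 by omega) hq.le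
      rw [mul_add, mul_one, ← hs, mul_zero] at this
      exact this
    rcases hcase with ⟨a, b⟩ | ⟨a, b⟩ | ⟨a, b⟩
    · exact w_pmC d he P hv s0 (by linarith) a b
    · exact w_pmA d he P hv s0 (by linarith) a b
    · exact w_pmB d he P hv s0 (by linarith) a b
  · obtain ⟨e1, e2⟩ := e.2 (by linarith)
    rcases hcase with ⟨a, b⟩ | ⟨a, b⟩ | ⟨a, b⟩
    · exact w_ppC d he P hv e1 (by linarith) a b
    · exact w_ppA d he P hv e1 (by linarith) a b
    · exact w_ppB d he P hv e1 (by linarith) a b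

end Pool.Agent.H42.WM
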